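import Mathlib

set_option autoImplicit false

namespace Pool.Agent.X149.EL

open Set

/-- Permutations moving one piece of a colour class to another. -/
lemma exists_perm {c : ℕ → ℕ} {j : ℕ} {A B : Set ℕ} (hA : A ⊆ {n | c n = j})
    (hB : B ⊆ {n | c n = j}) (hAi : A.Infinite) (hBi : B.Infinite)
    (hAc : ({n | c n = j} \ A).Infinite) (hBc : ({n | c n = j} \ B).Infinite) :
    ∃ π : Equiv.Perm ℕ, c ∘ π = c ∧ π ⁻¹' A = B := by
  classical
  set d : Set ℕ → ℕ → ℕ := fun A n => if n ∈ A then 0 else if c n = j then 1 else 2 + n with hd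
  have hd0 : ∀ A n, d A n = 0 ↔ n ∈ A := by
    intro A n
    simp only [hd]
    split_ifs with h1 h2
    · simp [h1]
    · simp [h1]
    · simp [h1]
  have hd1 : ∀ A n, d A n = 1 ↔ n ∈ {n | c n = j} \ A := by
    intro A n
    simp only [hd, mem_diff, mem_setOf_eq]
    split_ifs with h1 h2
    · simp [h1]
    · simp [h1, h2]
    · simp only [h1, h2, not_false_eq_true, and_true, iff_false]; omega
  have hd2 : ∀ A : Set ℕ, A ⊆ {n | c n = j} → ∀ i n, d A n = i + 2 ↔ (c n ≠ j ∧ n = i) := by
    intro A hA i n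
    simp only [hd]
    split_ifs with h1 h2
    · have := hA h1
      simp only [mem_setOf_eq] at this
      simp [this]
    · simp [h2]
    · simp only [ne_eq, h2, not_false_eq_true, true_and]; omega
  have hden : ∀ X : Set ℕ, X.Infinite → Nonempty (X ≃ ℕ) := by
    intro X hX
    have : Infinite X := hX.to_subtype
    have hD := Denumerable.ofEncodableOfInfinite X
    exact ⟨Denumerable.eqv X⟩
  have hfib : ∀ i : ℕ, Nonempty ({a // d B a = i} ≃ {a // d A a = i}) := by
    intro i
    rcases i with _ | _ | i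
    · obtain ⟨e1⟩ := hden A hAi
      obtain ⟨e2⟩ := hden B hBi
      exact ⟨(Equiv.subtypeEquivRight (hd0 B)).trans
        ((e2.trans e1.symm).trans (Equiv.subtypeEquivRight (hd0 A)).symm)⟩
    · obtain ⟨e1⟩ := hden _ hAc
      obtain ⟨e2⟩ := hden _ hBc
      exact ⟨(Equiv.subtypeEquivRight (hd1 B)).trans
        ((e2.trans e1.symm).trans (Equiv.subtypeEquivRight (hd1 A)).symm)⟩
    · exact ⟨Equiv.subtypeEquivRight fun n => by
        rw [show i + 1 + 1 = i + 2 from rfl, hd2 B hB, hd2 A hA]⟩
  set π : Equiv.Perm ℕ := Equiv.ofFiberEquiv fun i => (hfib i).some with hπ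
  have hπd : ∀ n, d A (π n) = d B n := fun n => Equiv.ofFiberEquiv_map _ n
  refine ⟨π, ?_, ?_⟩
  · funext n
    simp only [Function.comp_apply]
    by_cases h : c n = j
    · by_cases h1 : n ∈ B
      · have h2 := (hd0 B n).2 h1
        rw [← hπd n, hd0] at h2
        have h3 := hA h2
        simp only [mem_setOf_eq] at h3
        rw [h3, h]
      · have h2 := (hd1 B n).2 ⟨h, h1⟩
        rw [← hπd n, hd1] at h2
        have h3 := h2.1
        simp only [mem_setOf_eq] at h3
        rw [h3, h]
    · have h2 := (hd2 B hB n n).2 ⟨h, rfl⟩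
      rw [← hπd n, hd2 A hA] at h2
      rw [h2.2]
  · ext n
    rw [mem_preimage, ← hd0 A, hπd, hd0]

/-- Three infinite pieces. -/
lemma exists_split {P : Set ℕ} (hP : P.Infinite) : ∃ A B R : Set ℕ, A.Infinite ∧ B.Infinite ∧
    R.Infinite ∧ Disjoint A B ∧ Disjoint A R ∧ Disjoint B R ∧ A ∪ B ∪ R = P := by
  classical
  have : Infinite P := hP.to_subtype
  have hD := Denumerable.ofEncodableOfInfinite P
  set e : ℕ ≃ P := (Denumerable.eqv P).symm with he
  have hinj : ∀ r : ℕ, Function.Injective fun i : ℕ => ((e (3 * i + r) : P) : ℕ) := by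
    intro r i i' h
    have h1 := e.injective (Subtype.ext h)
    omega
  have hdis : ∀ r s : ℕ, r < 3 → s < 3 → r ≠ s → Disjoint
      (range fun i : ℕ => ((e (3 * i + r) : P) : ℕ)) (range fun i : ℕ => ((e (3 * i + s) : P) : ℕ)) := by
    intro r s hr hs hrs
    rw [Set.disjoint_left]
    rintro _ ⟨i, rfl⟩ ⟨i', h⟩
    have h1 := e.injective (Subtype.ext h)
    omega
  refine ⟨range fun i : ℕ => ((e (3 * i + 0) : P) : ℕ), range fun i : ℕ => ((e (3 * i + 1) : P) : ℕ),
    range fun i : ℕ => ((e (3 * i + 2) : P) : ℕ), infinite_range_of_injective (hinj 0),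
    infinite_range_of_injective (hinj 1), infinite_range_of_injective (hinj 2),
    hdis 0 1 (by norm_num) (by norm_num) (by norm_num),
    hdis 0 2 (by norm_num) (by norm_num) (by norm_num),
    hdis 1 2 (by norm_num) (by norm_num) (by norm_num), ?_⟩
  ext x
  constructor
  · rintro ((⟨i, rfl⟩ | ⟨i, rfl⟩) | ⟨i, rfl⟩) <;> exact Subtype.coe_prop _
  · intro hx
    set m := e.symm ⟨x, hx⟩ with hm
    have hem : ((e m : P) : ℕ) = x := by rw [hm, e.apply_symm_apply]
    have h3 : m = 3 * (m / 3) + m % 3 := by omega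
    have h4 : m % 3 < 3 := Nat.mod_lt _ (by norm_num)
    rcases (by omega : m % 3 = 0 ∨ m % 3 = 1 ∨ m % 3 = 2) with h | h | h
    · left; left; exact ⟨m / 3, by rw [h] at h3; simp only; rw [← h3]; exact hem⟩
    · left; right; exact ⟨m / 3, by rw [h] at h3; simp only; rw [← h3]; exact hem⟩
    · right; exact ⟨m / 3, by rw [h] at h3; simp only; rw [← h3]; exact hem⟩

/-- Inf-convolution. -/
noncomputable def reg {S : Type} [MetricSpace S] (t : ℝ) (f : S → ℝ) (u : S) : ℝ :=
  ⨅ v : S, (f v + dist u v / t)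

section reg

variable {S : Type} [MetricSpace S] {t : ℝ} {f : S → ℝ}

lemma reg_bdd (ht : 0 < t) (hf : ∀ u, 0 ≤ f u) (u : S) :
    BddBelow (range fun v : S => f v + dist u v / t) := by
  refine ⟨0, ?_⟩
  rintro _ ⟨v, rfl⟩
  have := hf v
  positivity

lemma reg_nonneg (ht : 0 < t) (hf : ∀ u, 0 ≤ f u) (u : S) : 0 ≤ reg t f u := by
  have : Nonempty S := ⟨u⟩
  refine le_ciInf fun v => ?_
  have := hf v
  positivity

lemma reg_le (ht : 0 < t) (hf : ∀ u, 0 ≤ f u) (u : S) : reg t f u ≤ f u := by
  have h := ciInf_le (reg_bdd ht hf u) u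
  simpa [reg] using h

lemma reg_lip (ht : 0 < t) (hf : ∀ u, 0 ≤ f u) (u v : S) :
    |reg t f u - reg t f v| ≤ 1 / t * dist u v := by
  have key : ∀ u v : S, reg t f u ≤ reg t f v + 1 / t * dist u v := by
    intro u v
    have : Nonempty S := ⟨u⟩
    rw [← sub_le_iff_le_add]
    refine le_ciInf fun w => ?_
    have h1 := ciInf_le (reg_bdd ht hf u) w
    have h2 : dist u w ≤ dist u v + dist v w := dist_triangle _ _ _
    have h3 : dist u w / t ≤ 1 / t * dist u v + dist v w / t := by
      rw [one_div_mul_eq_div, ← add_div]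
      exact div_le_div_of_nonneg_right h2 ht.le
    have h4 : reg t f u ≤ f w + dist u w / t := h1
    linarith
  rw [abs_le]
  have h1 := key u v
  have h2 := key v u
  rw [dist_comm v u] at h2
  constructor <;> linarith

lemma reg_close (ht : 0 < t) (hf : ∀ u, 0 ≤ f u) {H : ℝ} (hH : 0 ≤ H)
    (hol : ∀ u v, |f u - f v| ^ 2 ≤ H * dist u v) (u : S) : |reg t f u - f u| ≤ H * t := by
  have : Nonempty S := ⟨u⟩
  have h1 := reg_le ht hf u
  rw [abs_le]
  refine ⟨?_, by have : 0 ≤ H * t := by positivity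
                 linarith⟩
  have h2 : f u - H * t ≤ reg t f u := by
    refine le_ciInf fun v => ?_
    have h3 : |f u - f v| ≤ H * t + dist u v / t := by
      have h4 : |f u - f v| ^ 2 ≤ (H * t + dist u v / t) ^ 2 := by
        refine (hol u v).trans ?_
        have h5 : H * dist u v = (H * t) * (dist u v / t) := by field_simp
        have h6 : 0 ≤ H * t := by positivity
        have h7 : 0 ≤ dist u v / t := by positivity
        rw [h5]
        nlinarith
      have h8 : 0 ≤ H * t + dist u v / t := by positivity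
      exact (pow_le_pow_iff_left₀ (abs_nonneg _) h8 (by norm_num)).1 h4
    have h5 := le_abs_self (f u - f v)
    linarith
  linarith

lemma reg_equiv {φ : S → S} (hφ : Isometry φ) (hs : Function.Surjective φ) (f : S → ℝ) (u : S) :
    reg t f (φ u) = reg t (f ∘ φ) u := by
  unfold reg
  rw [← hs.iInf_comp]
  simp only [hφ.dist_eq, Function.comp_apply]

end reg

end Pool.Agent.X149.EL
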