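import Mathlib
import Pool.Agent.X149.EL.Perm
import Pool.Agent.X171.EL.Stm

set_option autoImplicit false

namespace Pool.Agent.X149.EL

open Set Pool.Agent.X171.EL

/-- The data. -/
structure Ctx (S : Type) [MetricSpace S] where
  act : Equiv.Perm ℕ → S → S
  iso : ∀ π, Isometry (act π)
  sur : ∀ π, Function.Surjective (act π)
  ψ : Set ℕ → S → ℝ
  H : ℝ
  Hn : 0 ≤ H
  b01 : ∀ A u, 0 ≤ ψ A u ∧ ψ A u ≤ 1
  add : ∀ A B, Disjoint A B → ∀ u, ψ (A ∪ B) u = ψ A u + ψ B u
  hol : ∀ A u v, |ψ A u - ψ A v| ^ 2 ≤ H * dist u v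
  eqv : ∀ (π : Equiv.Perm ℕ) A u, ψ A (act π u) = ψ (π ⁻¹' A) u
  ν : (S → ℝ) → ℝ
  C : ℝ
  nadd : ∀ g h a L, BL g a L → BL h a L → ν (g + h) = ν g + ν h
  nbd : ∀ g a L, BL g a L → |ν g| ≤ C * (a + L)
  ninv : ∀ π g a L, BL g a L → ν (g ∘ act π) = ν g

variable {S : Type} [MetricSpace S]

/-- Bounded and Lipschitz. -/
def IsBL (g : S → ℝ) : Prop := ∃ a L, 0 ≤ a ∧ 0 ≤ L ∧ BL g a L

lemma bl_mono {g : S → ℝ} {a L a' L' : ℝ} (h : BL g a L) (ha : a ≤ a') (hL : L ≤ L') :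
    BL g a' L' :=
  ⟨fun u => (h.1 u).trans ha, fun u v => (h.2 u v).trans
    (mul_le_mul_of_nonneg_right hL dist_nonneg)⟩

lemma IsBL.add {g h : S → ℝ} (hg : IsBL g) (hh : IsBL h) : IsBL (g + h) := by
  obtain ⟨a, L, ha, hL, h1⟩ := hg
  obtain ⟨a', L', ha', hL', h2⟩ := hh
  refine ⟨a + a', L + L', by positivity, by positivity, fun u => ?_, fun u v => ?_⟩
  · exact (abs_add_le _ _).trans (add_le_add (h1.1 u) (h2.1 u))
  · have : (g + h) u - (g + h) v = (g u - g v) + (h u - h v) := by simp only [Pi.add_apply]; ring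
    rw [this, add_mul]
    exact (abs_add_le _ _).trans (add_le_add (h1.2 u v) (h2.2 u v))

lemma IsBL.mul {g h : S → ℝ} (hg : IsBL g) (hh : IsBL h) : IsBL (g * h) := by
  obtain ⟨a, L, ha, hL, h1⟩ := hg
  obtain ⟨a', L', ha', hL', h2⟩ := hh
  refine ⟨a * a', a * L' + a' * L, by positivity, by positivity, fun u => ?_, fun u v => ?_⟩
  · rw [Pi.mul_apply, abs_mul]
    exact mul_le_mul (h1.1 u) (h2.1 u) (abs_nonneg _) ha
  · have : (g * h) u - (g * h) v = g u * (h u - h v) + h v * (g u - g v) := by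
      simp only [Pi.mul_apply]; ring
    rw [this]
    refine (abs_add_le _ _).trans ?_
    rw [abs_mul, abs_mul, add_mul, mul_assoc, mul_assoc]
    exact add_le_add (mul_le_mul (h1.1 u) (h2.2 u v) (abs_nonneg _) ha)
      (mul_le_mul (h2.1 v) (h1.2 u v) (abs_nonneg _) ha')

lemma IsBL.const (r : ℝ) : IsBL (fun _ : S => r) :=
  ⟨|r|, 0, abs_nonneg _, le_rfl, fun _ => le_rfl, fun u v => by simp⟩

lemma IsBL.neg {g : S → ℝ} (hg : IsBL g) : IsBL (-g) := by
  have := (IsBL.const (S := S) (-1)).mul hg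
  convert this using 1
  funext u
  simp

lemma IsBL.sub {g h : S → ℝ} (hg : IsBL g) (hh : IsBL h) : IsBL (g - h) := by
  rw [sub_eq_add_neg]
  exact hg.add hh.neg

lemma IsBL.sum {ι : Type} (s : Finset ι) {f : ι → S → ℝ} (hf : ∀ i ∈ s, IsBL (f i)) :
    IsBL (∑ i ∈ s, f i) := by
  classical
  induction s using Finset.induction_on with
  | empty => rw [Finset.sum_empty]; exact IsBL.const (S := S) 0
  | insert i s hi ih =>
    rw [Finset.sum_insert hi]
    exact (hf i (Finset.mem_insert_self _ _)).add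
      (ih fun j hj => hf j (Finset.mem_insert_of_mem hj))

namespace Ctx

variable (X : Ctx S)

lemma nu_add {g h : S → ℝ} (hg : IsBL g) (hh : IsBL h) : X.ν (g + h) = X.ν g + X.ν h := by
  obtain ⟨a, L, ha, hL, h1⟩ := hg
  obtain ⟨a', L', ha', hL', h2⟩ := hh
  exact X.nadd g h (a + a') (L + L') (bl_mono h1 (by linarith) (by linarith))
    (bl_mono h2 (by linarith) (by linarith))

lemma nu_zero : X.ν 0 = 0 := by
  have h := X.nu_add (g := 0) (h := 0) (IsBL.const (S := S) 0) (IsBL.const (S := S) 0)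
  rw [add_zero] at h
  linarith

lemma nu_sub {g h : S → ℝ} (hg : IsBL g) (hh : IsBL h) : X.ν (g - h) = X.ν g - X.ν h := by
  have h1 := X.nu_add (hg.sub hh) hh
  rw [sub_add_cancel] at h1
  linarith

lemma nu_sum {ι : Type} (s : Finset ι) {f : ι → S → ℝ} (hf : ∀ i ∈ s, IsBL (f i)) :
    X.ν (∑ i ∈ s, f i) = ∑ i ∈ s, X.ν (f i) := by
  classical
  induction s using Finset.induction_on with
  | empty => simpa using X.nu_zero
  | insert i s hi ih =>
    rw [Finset.sum_insert hi, Finset.sum_insert hi,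
      X.nu_add (hf i (Finset.mem_insert_self _ _))
        (IsBL.sum s fun j hj => hf j (Finset.mem_insert_of_mem hj)),
      ih fun j hj => hf j (Finset.mem_insert_of_mem hj)]

/-- The regularisation. -/
noncomputable def ρ (t : ℝ) (A : Set ℕ) : S → ℝ := reg t (X.ψ A)

variable {t : ℝ}

lemma ρ_nonneg (ht : 0 < t) (A : Set ℕ) (u : S) : 0 ≤ X.ρ t A u :=
  reg_nonneg ht (fun u => (X.b01 A u).1) u

lemma ρ_le_one (ht : 0 < t) (A : Set ℕ) (u : S) : X.ρ t A u ≤ 1 :=
  (reg_le ht (fun u => (X.b01 A u).1) u).trans (X.b01 A u).2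

lemma ρ_lip (ht : 0 < t) (A : Set ℕ) (u v : S) : |X.ρ t A u - X.ρ t A v| ≤ 1 / t * dist u v :=
  reg_lip ht (fun u => (X.b01 A u).1) u v

lemma ρ_close (ht : 0 < t) (A : Set ℕ) (u : S) : |X.ρ t A u - X.ψ A u| ≤ X.H * t :=
  reg_close ht (fun u => (X.b01 A u).1) X.Hn (X.hol A) u

lemma ρ_eqv (π : Equiv.Perm ℕ) (A : Set ℕ) (u : S) : X.ρ t A (X.act π u) = X.ρ t (π ⁻¹' A) u := by
  unfold ρ
  rw [reg_equiv (X.iso π) (X.sur π)]
  congr 1
  funext v
  exact X.eqv π A v

lemma ρ_BL (ht : 0 < t) (A : Set ℕ) : IsBL (X.ρ t A) :=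
  ⟨1, 1 / t, by norm_num, by positivity, fun u => by
    rw [abs_of_nonneg (X.ρ_nonneg ht A u)]; exact X.ρ_le_one ht A u, X.ρ_lip ht A⟩

lemma psi_empty (u : S) : X.ψ ∅ u = 0 := by
  have h := X.add ∅ ∅ (by simp) u
  rw [union_empty] at h
  linarith

lemma psi_sum {c : ℕ → ℕ} (u : S) (i : ℕ) :
    X.ψ {n | c n < i} u = ∑ j ∈ Finset.range i, X.ψ {n | c n = j} u := by
  induction i with
  | zero => simp [X.psi_empty]
  | succ i ih =>
    have h1 : {n | c n < i + 1} = {n | c n < i} ∪ {n | c n = i} := by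
      ext n
      simp only [mem_setOf_eq, mem_union]
      omega
    rw [h1, X.add, ih, Finset.sum_range_succ]
    rw [Set.disjoint_left]
    intro n h1 h2
    simp only [mem_setOf_eq] at h1 h2
    omega

/-- Estimates with explicit constants. -/
def Bound (F : ℝ → ℝ → ℝ → ℝ) : Prop := ∀ k : ℕ, ∃ K : ℝ, 0 ≤ K ∧ ∀ t : ℝ, 0 < t → t ≤ 1 →
  ∀ c : ℕ → ℕ, (∀ n, c n < k) → (∀ j < k, {n | c n = j}.Infinite) →
  ∀ (g : S → ℝ) (a L : ℝ), 0 ≤ a → 0 ≤ L → BL g a L →
  (∀ π : Equiv.Perm ℕ, c ∘ π = c → g ∘ X.act π = g) → (∀ u, g u ≠ 0 → X.ψ univ u = 1) →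
  |X.ν g| ≤ K * F t a L

lemma bound0 : X.Bound fun _ a L => a + L := by
  intro k
  refine ⟨|X.C|, abs_nonneg _, ?_⟩
  intro t _ _ c _ _ g a L ha hL hg _ _
  exact (X.nbd g a L hg).trans (mul_le_mul_of_nonneg_right (le_abs_self _) (by positivity))

/-- Product with a small function. -/
lemma prod_BL {e g : S → ℝ} {a L q t : ℝ} (ha : 0 ≤ a) (hL : 0 ≤ L) (hq : 0 ≤ q) (ht : 0 < t)
    (hg : BL g a L) (he : ∀ u, g u ≠ 0 → |e u| ≤ q * t)
    (hel : ∀ u v, |e u - e v| ≤ q / t * dist u v) :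
    BL (e * g) (q * (t * a)) (q * (t * L + a / t)) := by
  constructor
  · intro u
    by_cases h : g u = 0
    · rw [Pi.mul_apply, h, mul_zero, abs_zero]; positivity
    · rw [Pi.mul_apply, abs_mul, ← mul_assoc]
      exact mul_le_mul (he u h) (hg.1 u) (abs_nonneg _) (by positivity)
  · intro u v
    have hd : (0 : ℝ) ≤ dist u v := dist_nonneg
    have h0 : q * (t * L + a / t) * dist u v = (q * t) * (L * dist u v) + a * (q / t * dist u v) := by
      field_simp
    rw [h0]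
    have hnn : 0 ≤ a * (q / t * dist u v) := by positivity
    by_cases h : g u = 0
    · by_cases h' : g v = 0
      · rw [Pi.mul_apply, Pi.mul_apply, h, h', mul_zero, mul_zero, sub_zero, abs_zero]; positivity
      · have h1 : (e * g) u - (e * g) v = e v * (g u - g v) := by
          simp only [Pi.mul_apply, h]; ring
        rw [h1, abs_mul]
        have h2 := mul_le_mul (he v h') (hg.2 u v) (abs_nonneg _) (by positivity)
        linarith
    · have h1 : (e * g) u - (e * g) v = e u * (g u - g v) + g v * (e u - e v) := by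
        simp only [Pi.mul_apply]; ring
      rw [h1]
      refine (abs_add_le _ _).trans ?_
      rw [abs_mul, abs_mul]
      exact add_le_add (mul_le_mul (he u h) (hg.2 u v) (abs_nonneg _) (by positivity))
        (mul_le_mul (hg.1 v) (hel u v) (abs_nonneg _) ha)

/-- The defect. -/
noncomputable def dd (t : ℝ) (A B : Set ℕ) : S → ℝ := X.ρ t (A ∪ B) - X.ρ t A - X.ρ t B

lemma dd_BL (ht : 0 < t) (A B : Set ℕ) : IsBL (X.dd t A B) :=
  ((X.ρ_BL ht _).sub (X.ρ_BL ht _)).sub (X.ρ_BL ht _)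

lemma dd_small (ht : 0 < t) {A B : Set ℕ} (h : Disjoint A B) (u : S) :
    |X.dd t A B u| ≤ 3 * X.H * t := by
  have h1 := X.ρ_close ht (A ∪ B) u
  have h2 := X.ρ_close ht A u
  have h3 := X.ρ_close ht B u
  rw [X.add A B h u] at h1
  simp only [dd, Pi.sub_apply]
  rw [abs_le] at *
  constructor <;> linarith [h1.1, h1.2, h2.1, h2.2, h3.1, h3.2]

lemma dd_lip (ht : 0 < t) (A B : Set ℕ) (u v : S) :
    |X.dd t A B u - X.dd t A B v| ≤ 3 / t * dist u v := by
  have h1 := X.ρ_lip ht (A ∪ B) u v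
  have h2 := X.ρ_lip ht A u v
  have h3 := X.ρ_lip ht B u v
  have h4 : 3 / t * dist u v = 3 * (1 / t * dist u v) := by ring
  simp only [dd, Pi.sub_apply]
  rw [h4]
  rw [abs_le] at *
  constructor <;> linarith [h1.1, h1.2, h2.1, h2.2, h3.1, h3.2]

/-- The remainder. -/
noncomputable def rr (t : ℝ) (c : ℕ → ℕ) (k : ℕ) : S → ℝ :=
  (fun _ => 1) - ∑ j ∈ Finset.range k, X.ρ t {n | c n = j}

lemma rr_apply (c : ℕ → ℕ) (k : ℕ) (u : S) :
    X.rr t c k u = 1 - ∑ j ∈ Finset.range k, X.ρ t {n | c n = j} u := by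
  simp [rr, Finset.sum_apply]

lemma rr_BL (ht : 0 < t) (c : ℕ → ℕ) (k : ℕ) : IsBL (X.rr t c k) :=
  (IsBL.const (S := S) 1).sub (IsBL.sum _ fun j _ => X.ρ_BL ht _)

lemma rr_small (ht : 0 < t) {c : ℕ → ℕ} {k : ℕ} (hc : ∀ n, c n < k) {u : S}
    (hu : X.ψ univ u = 1) : |X.rr t c k u| ≤ k * X.H * t := by
  have h1 : ∑ j ∈ Finset.range k, X.ψ {n | c n = j} u = 1 := by
    rw [← X.psi_sum, ← hu]
    congr 1
    ext n
    simp [hc n]
  rw [rr_apply, ← h1, ← Finset.sum_sub_distrib]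
  refine (Finset.abs_sum_le_sum_abs _ _).trans ?_
  refine (Finset.sum_le_card_nsmul _ _ (X.H * t) fun j _ => ?_).trans ?_
  · rw [abs_sub_comm]; exact X.ρ_close ht _ u
  · rw [Finset.card_range, nsmul_eq_mul, mul_assoc]

lemma rr_lip (ht : 0 < t) (c : ℕ → ℕ) (k : ℕ) (u v : S) :
    |X.rr t c k u - X.rr t c k v| ≤ k / t * dist u v := by
  rw [rr_apply, rr_apply]
  have h1 : (1 - ∑ j ∈ Finset.range k, X.ρ t {n | c n = j} u) -
      (1 - ∑ j ∈ Finset.range k, X.ρ t {n | c n = j} v) =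
      ∑ j ∈ Finset.range k, (X.ρ t {n | c n = j} v - X.ρ t {n | c n = j} u) := by
    rw [Finset.sum_sub_distrib]; ring
  rw [h1]
  refine (Finset.abs_sum_le_sum_abs _ _).trans ?_
  refine (Finset.sum_le_card_nsmul _ _ (1 / t * dist u v) fun j _ => ?_).trans ?_
  · rw [abs_sub_comm]; exact X.ρ_lip ht _ u v
  · rw [Finset.card_range, nsmul_eq_mul]
    exact le_of_eq (by ring)

/-- The finer colouring. -/
noncomputable def fine (c : ℕ → ℕ) (k : ℕ) (A B : Set ℕ) (n : ℕ) : ℕ :=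
  open Classical in if n ∈ A then k else if n ∈ B then k + 1 else c n

section fine

variable {c : ℕ → ℕ} {k j : ℕ} {A B R : Set ℕ}

lemma fine_lt (hc : ∀ n, c n < k) (n : ℕ) : fine c k A B n < k + 2 := by
  unfold fine
  have := hc n
  split_ifs <;> omega

lemma fine_A (hc : ∀ n, c n < k) (n : ℕ) : fine c k A B n = k ↔ n ∈ A := by
  unfold fine
  have := hc n
  split_ifs with h1 h2
  · simp [h1]
  · simp [h1]
  · simp only [h1, iff_false]; omega

lemma fine_B (hc : ∀ n, c n < k) (hAB : Disjoint A B) (n : ℕ) :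
    fine c k A B n = k + 1 ↔ n ∈ B := by
  unfold fine
  have := hc n
  split_ifs with h1 h2
  · have : n ∉ B := fun h => Set.disjoint_left.1 hAB h1 h
    simp [this]
  · simp [h2]
  · simp only [h2, iff_false]; omega

lemma fine_else (n : ℕ) (h1 : n ∉ A) (h2 : n ∉ B) : fine c k A B n = c n := by
  unfold fine
  rw [if_neg h1, if_neg h2]

lemma fine_inv (hc : ∀ n, c n < k) (hAB : Disjoint A B) (hA : A ⊆ {n | c n = j})
    (hB : B ⊆ {n | c n = j}) {π : Equiv.Perm ℕ} (hπ : fine c k A B ∘ π = fine c k A B) :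
    c ∘ π = c ∧ π ⁻¹' A = A ∧ π ⁻¹' B = B := by
  have h0 : ∀ n, fine c k A B (π n) = fine c k A B n := fun n => congrFun hπ n
  have hA' : ∀ n, π n ∈ A ↔ n ∈ A := fun n => by
    rw [← fine_A (B := B) hc, h0, fine_A hc]
  have hB' : ∀ n, π n ∈ B ↔ n ∈ B := fun n => by
    rw [← fine_B hc hAB, h0, fine_B hc hAB]
  refine ⟨?_, Set.ext fun n => hA' n, Set.ext fun n => hB' n⟩
  funext n
  simp only [Function.comp_apply]
  by_cases h1 : n ∈ A
  · have h2 : c (π n) = j := hA ((hA' n).2 h1)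
    have h3 : c n = j := hA h1
    rw [h2, h3]
  · by_cases h2 : n ∈ B
    · have h4 : c (π n) = j := hB ((hB' n).2 h2)
      have h3 : c n = j := hB h2
      rw [h4, h3]
    · have h3 := h0 n
      rwa [fine_else _ (fun h => h1 ((hA' n).1 h)) (fun h => h2 ((hB' n).1 h)),
        fine_else _ h1 h2] at h3

end fine

/-- The value on a colour class. -/
lemma class_le {F : ℝ → ℝ → ℝ → ℝ} {K q : ℝ} {k : ℕ} (hK : 0 ≤ K) (ht : 0 < t) (ht1 : t ≤ 1)
    (hF : ∀ t : ℝ, 0 < t → t ≤ 1 →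
      ∀ c : ℕ → ℕ, (∀ n, c n < k + 2) → (∀ j < k + 2, {n | c n = j}.Infinite) →
      ∀ (g : S → ℝ) (a L : ℝ), 0 ≤ a → 0 ≤ L → BL g a L →
      (∀ π : Equiv.Perm ℕ, c ∘ π = c → g ∘ X.act π = g) → (∀ u, g u ≠ 0 → X.ψ univ u = 1) →
      |X.ν g| ≤ K * F t a L)
    (hq : 3 * X.H ≤ q) (hq3 : 3 ≤ q)
    {c : ℕ → ℕ} (hc : ∀ n, c n < k) (hinf : ∀ j < k, {n | c n = j}.Infinite)
    {g : S → ℝ} {a L : ℝ} (ha : 0 ≤ a) (hL : 0 ≤ L) (hg : BL g a L)
    (hinv : ∀ π : Equiv.Perm ℕ, c ∘ π = c → g ∘ X.act π = g)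
    (hsupp : ∀ u, g u ≠ 0 → X.ψ univ u = 1) {j : ℕ} (hj : j < k) :
    |X.ν (X.ρ t {n | c n = j} * g)| ≤ 3 * (K * F t (q * (t * a)) (q * (t * L + a / t))) ∧
    ∀ e : S → ℝ, IsBL e → (∀ u, g u ≠ 0 → |e u| ≤ q * t) →
      (∀ u v, |e u - e v| ≤ q / t * dist u v) →
      (∀ π : Equiv.Perm ℕ, c ∘ π = c → e ∘ X.act π = e) →
      |X.ν (e * g)| ≤ K * F t (q * (t * a)) (q * (t * L + a / t)) := by
  obtain ⟨A, B, R, hAi, hBi, hRi, hAB, hAR, hBR, hP⟩ := exists_split (hinf j hj)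
  have hgBL : IsBL g := ⟨a, L, ha, hL, hg⟩
  have hq0 : 0 ≤ q := by linarith
  have hA : A ⊆ {n | c n = j} := by rw [← hP]; exact fun x hx => Or.inl (Or.inl hx)
  have hB : B ⊆ {n | c n = j} := by rw [← hP]; exact fun x hx => Or.inl (Or.inr hx)
  have hR : R ⊆ {n | c n = j} := by rw [← hP]; exact fun x hx => Or.inr hx
  -- the finer colouring
  have hfi : ∀ i < k + 2, {n | fine c k A B n = i}.Infinite := by
    intro i hi
    rcases (by omega : i = k ∨ i = k + 1 ∨ i < k) with h | h | h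
    · rw [h, show {n | fine c k A B n = k} = A from Set.ext fun n => fine_A hc n]
      exact hAi
    · rw [h, show {n | fine c k A B n = k + 1} = B from Set.ext fun n => fine_B hc hAB n]
      exact hBi
    · by_cases hij : i = j
      · refine hRi.mono fun n hn => ?_
        have h1 : n ∉ A := fun h => Set.disjoint_left.1 hAR h hn
        have h2 : n ∉ B := fun h => Set.disjoint_left.1 hBR h hn
        show fine c k A B n = i
        rw [fine_else _ h1 h2, hij]
        exact hR hn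
      · refine (hinf i h).mono fun n hn => ?_
        have h0 : c n = i := hn
        have h1 : n ∉ A := fun h => hij (h0.symm.trans (hA h))
        have h2 : n ∉ B := fun h => hij (h0.symm.trans (hB h))
        show fine c k A B n = i
        rw [fine_else _ h1 h2, h0]
  have hmain : ∀ e : S → ℝ, (∀ u, g u ≠ 0 → |e u| ≤ q * t) →
      (∀ u v, |e u - e v| ≤ q / t * dist u v) →
      (∀ π : Equiv.Perm ℕ, fine c k A B ∘ π = fine c k A B → e ∘ X.act π = e) →
      |X.ν (e * g)| ≤ K * F t (q * (t * a)) (q * (t * L + a / t)) := by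
    intro e he hel heinv
    refine hF t ht ht1 (fine c k A B) (fine_lt hc) hfi (e * g) _ _ (by positivity) (by positivity)
      (prod_BL ha hL hq0 ht hg he hel) ?_ ?_
    · intro π hπ
      have h1 := heinv π hπ
      have h2 := hinv π (fine_inv hc hAB hA hB hπ).1
      rw [Pi.mul_comp, h1, h2]
    · intro u hu
      refine hsupp u fun h => hu ?_
      rw [Pi.mul_apply, h, mul_zero]
  refine ⟨?_, fun e _ he hel heinv => hmain e he hel fun π hπ => heinv π
    (fine_inv hc hAB hA hB hπ).1⟩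
  -- the value of `m`
  have hm : ∀ A' B' : Set ℕ, A' ⊆ {n | c n = j} → B' ⊆ {n | c n = j} → A'.Infinite →
      B'.Infinite → ({n | c n = j} \ A').Infinite → ({n | c n = j} \ B').Infinite →
      X.ν (X.ρ t A' * g) = X.ν (X.ρ t B' * g) := by
    intro A' B' h1 h2 h3 h4 h5 h6
    obtain ⟨π, hπ, hπ'⟩ := exists_perm h1 h2 h3 h4 h5 h6
    obtain ⟨a', L', _, _, hb⟩ := (X.ρ_BL ht A').mul hgBL
    have h7 := X.ninv π (X.ρ t A' * g) a' L' hb
    rw [← h7, Pi.mul_comp, hinv π hπ]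
    congr 2
    funext u
    rw [Function.comp_apply, X.ρ_eqv, hπ']
  have hsub : ∀ {Y Z : Set ℕ}, Z ⊆ {n | c n = j} → Z.Infinite → Disjoint Y Z →
      ({n | c n = j} \ Y).Infinite := fun {Y Z} h1 h2 h3 =>
    h2.mono fun n hn => ⟨h1 hn, fun h => Set.disjoint_left.1 h3 h hn⟩
  have hBA := hAB.symm
  have h1 := hm A B hA hB hAi hBi (hsub hB hBi hAB) (hsub hA hAi hBA)
  have h2 := hm A (A ∪ B) hA (union_subset hA hB) hAi (hAi.mono subset_union_left)
    (hsub hB hBi hAB) (hsub hR hRi (Set.disjoint_union_left.2 ⟨hAR, hBR⟩))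
  have h3 := hm A (B ∪ R) hA (union_subset hB hR) hAi (hBi.mono subset_union_left)
    (hsub hB hBi hAB) (hsub hA hAi (Set.disjoint_union_left.2 ⟨hBA, hAR.symm⟩))
  have hABR : Disjoint A (B ∪ R) := Set.disjoint_union_right.2 ⟨hAB, hAR⟩
  have hsplit : ∀ Y Z : Set ℕ, X.ν (X.ρ t (Y ∪ Z) * g) =
      X.ν (X.ρ t Y * g) + X.ν (X.ρ t Z * g) + X.ν (X.dd t Y Z * g) := by
    intro Y Z
    have h4 : X.ρ t (Y ∪ Z) * g = X.ρ t Y * g + X.ρ t Z * g + X.dd t Y Z * g := by
      unfold dd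
      ring
    rw [h4, X.nu_add (((X.ρ_BL ht _).mul hgBL).add ((X.ρ_BL ht _).mul hgBL))
      ((X.dd_BL ht _ _).mul hgBL), X.nu_add ((X.ρ_BL ht _).mul hgBL) ((X.ρ_BL ht _).mul hgBL)]
  have h4 := hsplit A B
  have h5 := hsplit A (B ∪ R)
  rw [← union_assoc, hP] at h5
  have hqt : 3 * X.H * t ≤ q * t := mul_le_mul_of_nonneg_right hq ht.le
  have hqt3 : ∀ u v : S, 3 / t * dist u v ≤ q / t * dist u v := fun u v =>
    mul_le_mul_of_nonneg_right (div_le_div_of_nonneg_right hq3 ht.le) dist_nonneg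
  have h6 := hmain (X.dd t A B) (fun u _ => (X.dd_small ht hAB u).trans hqt)
    (fun u v => (X.dd_lip ht A B u v).trans (hqt3 u v)) (fun π hπ => by
      obtain ⟨_, e1, e2⟩ := fine_inv hc hAB hA hB hπ
      funext u
      simp only [Function.comp_apply, dd, Pi.sub_apply, X.ρ_eqv, preimage_union, e1, e2])
  have h7 := hmain (X.dd t A (B ∪ R)) (fun u _ => (X.dd_small ht hABR u).trans hqt)
    (fun u v => (X.dd_lip ht A _ u v).trans (hqt3 u v)) (fun π hπ => by
      obtain ⟨e0, e1, e2⟩ := fine_inv hc hAB hA hB hπ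
      have e3 : π ⁻¹' {n | c n = j} = {n | c n = j} := by
        ext n
        have := congrFun e0 n
        simp only [Function.comp_apply] at this
        simp only [mem_preimage, mem_setOf_eq, this]
      have e4 : B ∪ R = {n | c n = j} \ A := by
        rw [← hP, union_assoc, Set.union_diff_left]
        exact (Disjoint.sdiff_eq_left hABR.symm).symm
      have e5 : π ⁻¹' (B ∪ R) = B ∪ R := by
        rw [e4, preimage_diff, e3, e1]
      funext u
      simp only [Function.comp_apply, dd, Pi.sub_apply, X.ρ_eqv]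
      rw [preimage_union, e1, e5])
  rw [h5]
  rw [abs_le] at h6 h7 ⊢
  constructor <;> linarith [h6.1, h6.2, h7.1, h7.2]

theorem step {F : ℝ → ℝ → ℝ → ℝ} (hF : X.Bound F)
    (hom : ∀ t a L s : ℝ, 0 ≤ s → F t (s * a) (s * L) = s * F t a L) :
    X.Bound fun t a L => F t (t * a) (t * L + a / t) := by
  intro k
  obtain ⟨K, hK, h⟩ := hF (k + 2)
  have hHn := X.Hn
  set q : ℝ := 3 * X.H + k * X.H + k + 3 with hq
  have hk0 : (0 : ℝ) ≤ k := Nat.cast_nonneg k
  have hkH : 0 ≤ k * X.H := mul_nonneg hk0 hHn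
  have hq0 : 0 ≤ q := by rw [hq]; linarith
  refine ⟨(3 * k + 1) * K * q, by positivity, ?_⟩
  intro t ht ht1 c hc hinf g a L ha hL hg hinv hsupp
  have hkpos : 0 < k := lt_of_le_of_lt (Nat.zero_le _) (hc 0)
  have hgBL : IsBL g := ⟨a, L, ha, hL, hg⟩
  have hcl := fun j (hj : j < k) => X.class_le (F := F) (K := K) (q := q) hK ht ht1 h
    (by rw [hq]; linarith) (by rw [hq]; linarith) hc hinf ha hL hg hinv hsupp hj
  have hdec : g = ∑ j ∈ Finset.range k, X.ρ t {n | c n = j} * g + X.rr t c k * g := by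
    funext u
    simp only [Pi.add_apply, Finset.sum_apply, Pi.mul_apply, X.rr_apply]
    rw [← Finset.sum_mul]
    ring
  have h1 : X.ν g = ∑ j ∈ Finset.range k, X.ν (X.ρ t {n | c n = j} * g) +
      X.ν (X.rr t c k * g) := by
    conv_lhs => rw [hdec]
    rw [X.nu_add (IsBL.sum _ fun j _ => (X.ρ_BL ht _).mul hgBL) ((X.rr_BL ht c k).mul hgBL),
      X.nu_sum _ fun j _ => (X.ρ_BL ht _).mul hgBL]
  set W : ℝ := K * F t (q * (t * a)) (q * (t * L + a / t)) with hW
  have h2 : |X.ν (X.rr t c k * g)| ≤ W := by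
    refine (hcl 0 hkpos).2 _ (X.rr_BL ht c k) (fun u hu => ?_) (fun u v => ?_) fun π hπ => ?_
    · refine (X.rr_small ht hc (hsupp u hu)).trans ?_
      refine mul_le_mul_of_nonneg_right ?_ ht.le
      rw [hq]; linarith
    · refine (X.rr_lip ht c k u v).trans ?_
      refine mul_le_mul_of_nonneg_right (div_le_div_of_nonneg_right ?_ ht.le) dist_nonneg
      rw [hq]; linarith
    · funext u
      simp only [Function.comp_apply, X.rr_apply, X.ρ_eqv]
      congr 1
      refine Finset.sum_congr rfl fun j _ => ?_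
      congr 1
      ext n
      have := congrFun hπ n
      simp only [Function.comp_apply] at this
      simp only [mem_preimage, mem_setOf_eq, this]
  have h3 : |∑ j ∈ Finset.range k, X.ν (X.ρ t {n | c n = j} * g)| ≤ k * (3 * W) := by
    refine (Finset.abs_sum_le_sum_abs _ _).trans ?_
    refine (Finset.sum_le_card_nsmul _ _ (3 * W) fun j hj => ?_).trans ?_
    · exact (hcl j (Finset.mem_range.1 hj)).1
    · rw [Finset.card_range, nsmul_eq_mul]
  rw [h1]
  refine (abs_add_le _ _).trans ((add_le_add h3 h2).trans (le_of_eq ?_))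
  rw [hW, hom t (t * a) (t * L + a / t) q hq0]
  ring

theorem final {g : S → ℝ} {a L : ℝ} (hg : BL g a L) (hinv : ∀ π, g ∘ X.act π = g)
    (hsupp : ∀ u, g u ≠ 0 → X.ψ univ u = 1) : X.ν g = 0 := by
  have h1 := X.step X.bound0 (fun t a L s _ => by ring)
  have h2 := X.step h1 (fun t a L s _ => by ring)
  have h3 := X.step h2 (fun t a L s _ => by ring)
  obtain ⟨K, hK, h⟩ := h3 1
  set a' : ℝ := |a| with ha'
  set L' : ℝ := |L| with hL'
  have ha0 : 0 ≤ a' := abs_nonneg _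
  have hL0 : 0 ≤ L' := abs_nonneg _
  have hg' : BL g a' L' := bl_mono hg (le_abs_self _) (le_abs_self _)
  have h4 : ∀ t : ℝ, 0 < t → t ≤ 1 → |X.ν g| ≤ (K * (4 * a' + L')) * t := by
    intro t ht ht1
    have h5 := h t ht ht1 (fun _ => 0) (fun _ => Nat.zero_lt_one) (fun j hj => by
      have : j = 0 := by omega
      subst this
      simpa using Set.infinite_univ (α := ℕ)) g a' L' ha0 hL0 hg' (fun π _ => hinv π) hsupp
    refine h5.trans ?_
    rw [mul_assoc]
    refine mul_le_mul_of_nonneg_left ?_ hK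
    have h6 : t * (t * (t * a')) + (t * (t * (t * L' + a' / t) + t * a' / t) + t * (t * a') / t) =
        t ^ 3 * a' + (t ^ 3 * L' + 3 * (t * a')) := by
      field_simp
      ring
    have h7 : t ^ 3 ≤ t := by
      calc t ^ 3 ≤ t ^ 1 := pow_le_pow_of_le_one ht.le ht1 (by norm_num)
        _ = t := pow_one t
    have h8 : t ^ 3 * a' ≤ t * a' := mul_le_mul_of_nonneg_right h7 ha0
    have h9 : t ^ 3 * L' ≤ t * L' := mul_le_mul_of_nonneg_right h7 hL0
    simp only
    linarith [h6]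
  set M : ℝ := K * (4 * a' + L') with hM
  have hM0 : 0 ≤ M := by positivity
  by_contra hne
  have hpos : 0 < |X.ν g| := abs_pos.2 hne
  set x := |X.ν g| with hx
  have h5 := h4 (min 1 (x / (2 * (M + 1)))) (by positivity) (min_le_left _ _)
  have h6 : M * min 1 (x / (2 * (M + 1))) ≤ M * (x / (2 * (M + 1))) :=
    mul_le_mul_of_nonneg_left (min_le_right _ _) hM0
  have h7 : M * (x / (2 * (M + 1))) < x := by
    rw [← mul_div_assoc, div_lt_iff₀ (by positivity)]
    nlinarith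
  linarith

end Ctx

/-- The abstract paradox. -/
theorem t_ABS : Pool.Agent.X171.EL.S_ABS := by
  intro S _ act iso sur ψ H b01 add hol eqv ν C nadd nbd ninv g a L hg hinv hsupp
  have hol' : ∀ A u v, |ψ A u - ψ A v| ^ 2 ≤ max H 0 * dist u v := fun A u v =>
    (hol A u v).trans (mul_le_mul_of_nonneg_right (le_max_left _ _) dist_nonneg)
  exact Ctx.final (⟨act, iso, sur, ψ, max H 0, le_max_right _ _, b01, add, hol', eqv, ν, C, nadd,
    nbd, ninv⟩ : Ctx S) hg hinv hsupp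

end Pool.Agent.X149.EL
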